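import Pool.Agent.N44.FA.Stm
import Pool.Agent.H279R3.TreeHelly

/-!
# Groups generated by involutions with products of order dividing 4 have property (FA)

Project FA (helper44), part FAP (helper507).
-/

set_option autoImplicit false
set_option linter.all false

namespace Pool.Agent.N507.FA

open Pool.Agent.N44.FA SimpleGraph

/-- A convex set of vertices. -/
def Cvx {V : Type} (T : SimpleGraph V) (X : Set V) : Prop :=
  ∀ a ∈ X, ∀ b ∈ X, ∀ p : T.Walk a b, p.IsPath → ∀ x ∈ p.support, x ∈ X

theorem Cvx.wconn {V : Type} {T : SimpleGraph V} (hT : T.IsTree) {X : Set V} (h : Cvx T X) :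
    H279R3.WConn T X := by
  classical
  intro i hi j hj
  obtain ⟨p⟩ := hT.connected i j
  exact ⟨p.bypass, h i hi j hj _ p.bypass_isPath⟩

section act

variable {G V : Type} [Group G] [MulAction G V] {T : SimpleGraph V}

/-- the action of an element -/
def gh (hadj : ∀ g : G, ∀ x y : V, T.Adj x y → T.Adj (g • x) (g • y)) (g : G) : T →g T :=
  ⟨fun v => g • v, fun {a b} h => hadj g a b h⟩

theorem gh_inj (hadj : ∀ g : G, ∀ x y : V, T.Adj x y → T.Adj (g • x) (g • y)) (g : G) :
    Function.Injective (gh hadj g) := MulAction.injective g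

/-- the fixed vertices -/
def Fx (V : Type) [MulAction G V] (K : Set G) : Set V := {v | ∀ g ∈ K, g • v = v}

theorem fx_cvx (hT : T.IsTree) (hadj : ∀ g : G, ∀ x y : V, T.Adj x y → T.Adj (g • x) (g • y))
    (K : Set G) : Cvx T (Fx V K) := by
  intro a ha b hb p hp x hx g hg
  have hq : ((p.map (gh hadj g)).copy (ha g hg) (hb g hg)).IsPath := by
    rw [Walk.isPath_copy]
    exact Walk.map_isPath_of_injective (gh_inj hadj g) hp
  have he := (hT.isAcyclic.subsingleton_path a b).elim ⟨_, hq⟩ ⟨p, hp⟩
  have he' := congrArg Walk.support (congrArg Subtype.val he)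
  simp only [Walk.support_copy, Walk.support_map] at he'
  have h1 : p.support.map (gh hadj g) = p.support.map id := by rw [he', List.map_id]
  exact (List.map_inj_left.1 h1) x hx

theorem midpoint (hT : T.IsTree) (hadj : ∀ g : G, ∀ x y : V, T.Adj x y → T.Adj (g • x) (g • y))
    (hinv : ∀ g : G, ∀ x y : V, T.Adj x y → ¬ (g • x = y ∧ g • y = x)) {X : Set V}
    (hX : Cvx T X) (hne : X.Nonempty) {g : G} (hg : g * g = 1) (hgX : ∀ v ∈ X, g • v ∈ X) :
    ∃ v ∈ X, g • v = v := by
  classical
  obtain ⟨a, ha⟩ := hne
  obtain ⟨p0⟩ := hT.connected a (g • a)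
  obtain ⟨p, hp⟩ : ∃ p : T.Walk a (g • a), p.IsPath := ⟨p0.bypass, p0.bypass_isPath⟩
  have hga : gh hadj g a = g • a := rfl
  have hgg : gh hadj g (g • a) = a := by
    show g • g • a = a
    rw [smul_smul, hg, one_smul]
  have hq : (((p.map (gh hadj g)).copy hga hgg).reverse).IsPath := by
    rw [Walk.isPath_reverse_iff, Walk.isPath_copy]
    exact Walk.map_isPath_of_injective (gh_inj hadj g) hp
  have he := (hT.isAcyclic.subsingleton_path a (g • a)).elim ⟨p, hp⟩ ⟨_, hq⟩
  have hv : ∀ i, p.getVert i = g • p.getVert (p.length - i) := by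
    intro i
    have h1 := congrArg (fun w => Walk.getVert w i) (congrArg Subtype.val he)
    simp only at h1
    rw [Walk.getVert_reverse, Walk.getVert_copy, Walk.getVert_map, Walk.length_copy,
      Walk.length_map] at h1
    exact h1
  have hin : ∀ i, p.getVert i ∈ X := fun i =>
    hX a ha (g • a) (hgX a ha) p hp _ (Walk.getVert_mem_support p i)
  rcases Nat.even_or_odd' p.length with ⟨m, hm | hm⟩
  · refine ⟨p.getVert m, hin m, ?_⟩
    have h1 := hv m
    rw [hm, (by omega : 2 * m - m = m)] at h1
    exact h1.symm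
  · exfalso
    have h1 := hv m
    have h2 := hv (m + 1)
    rw [hm, (by omega : 2 * m + 1 - m = m + 1)] at h1
    rw [hm, (by omega : 2 * m + 1 - (m + 1) = m)] at h2
    exact hinv g (p.getVert m) (p.getVert (m + 1)) (Walk.adj_getVert_succ p (by omega))
      ⟨h2.symm, h1.symm⟩

end act

theorem t_fap : S_FAP := by
  intro G _ A hA hcl hinvo hord V _ T hT hadj hinv
  have hne : Nonempty V := hT.connected.nonempty
  have huniv : Cvx T (Set.univ : Set V) := fun _ _ _ _ _ _ _ _ => Set.mem_univ _
  have hpair : ∀ s ∈ A, ∀ t ∈ A, (Fx V ({s} : Set G) ∩ Fx V ({t} : Set G)).Nonempty := by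
    intro s hs t ht
    have hss := hinvo s hs
    have htt := hinvo t ht
    obtain ⟨z, hz⟩ : ∃ z : G, z = s * t * s * t := ⟨_, rfl⟩
    have hz2 : z * z = 1 := by
      rw [hz, ← hord s hs t ht]
      simp only [pow_succ, pow_zero, one_mul, mul_assoc]
    have hzi : z = t * s * t * s := by
      have h1 : z * (t * s * t * s) = 1 := by
        rw [hz]
        calc s * t * s * t * (t * s * t * s) = s * t * s * (t * t) * s * t * s := by
              simp only [mul_assoc]
          _ = s * t * (s * s) * t * s := by rw [htt]; simp only [mul_assoc, mul_one, one_mul]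
          _ = s * (t * t) * s := by rw [hss]; simp only [mul_assoc, mul_one, one_mul]
          _ = 1 := by rw [htt, mul_one, hss]
      calc z = z * (z * (t * s * t * s)) := by rw [h1, mul_one]
        _ = (z * z) * (t * s * t * s) := by simp only [mul_assoc]
        _ = _ := by rw [hz2, one_mul]
    have hsz : s * z = z * s := by
      calc s * z = (s * s) * t * s * t := by rw [hz]; simp only [mul_assoc]
        _ = t * s * t := by rw [hss, one_mul]
        _ = t * s * t * (s * s) := by rw [hss, mul_one]
        _ = (t * s * t * s) * s := by simp only [mul_assoc]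
        _ = z * s := by rw [← hzi]
    have htz : t * z = z * t := by
      calc t * z = (t * t) * s * t * s := by rw [hzi]; simp only [mul_assoc]
        _ = s * t * s := by rw [htt, one_mul]
        _ = s * t * s * (t * t) := by rw [htt, mul_one]
        _ = (s * t * s * t) * t := by simp only [mul_assoc]
        _ = z * t := by rw [← hz]
    have hst : s * t = t * s * z := by
      calc s * t = (t * t) * s * t := by rw [htt, one_mul]
        _ = t * (t * s * t) := by simp only [mul_assoc]
        _ = t * (s * z) := by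
            congr 1
            rw [hz]
            calc t * s * t = (s * s) * t * s * t := by rw [hss, one_mul]
              _ = _ := by simp only [mul_assoc]
        _ = _ := by simp only [mul_assoc]
    obtain ⟨v1, -, hv1⟩ := midpoint hT hadj hinv huniv ⟨hne.some, Set.mem_univ _⟩ hss
      (fun _ _ => Set.mem_univ _)
    obtain ⟨v2, hv2, hv2'⟩ := midpoint hT hadj hinv (fx_cvx hT hadj ({s} : Set G))
      ⟨v1, by rintro g rfl; exact hv1⟩ hz2 (by
        rintro v hv g rfl
        rw [smul_smul, hsz, ← smul_smul, hv g rfl])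
    obtain ⟨v3, hv3, hv3'⟩ := midpoint hT hadj hinv (fx_cvx hT hadj ({s, z} : Set G))
      ⟨v2, by
        rintro g (rfl | rfl)
        · exact hv2 g rfl
        · exact hv2'⟩ htt (by
        intro v hv
        have h1 : s • v = v := hv s (Or.inl rfl)
        have h2 : z • v = v := hv z (Or.inr rfl)
        rintro g (rfl | rfl)
        · rw [smul_smul, hst, ← smul_smul, h2, ← smul_smul, h1]
        · rw [smul_smul, ← htz, ← smul_smul, h2])
    refine ⟨v3, ?_, ?_⟩
    · rintro g rfl
      exact hv3 g (Or.inl rfl)
    · rintro g rfl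
      exact hv3'
  have hfix : ∃ v : V, ∀ s ∈ A, s • v = v := by
    rcases A.eq_empty_or_nonempty with h0 | ⟨a, ha⟩
    · refine ⟨hne.some, fun s hs => ?_⟩
      rw [h0] at hs
      exact absurd hs (Set.notMem_empty _)
    · have i1 : Finite A := hA
      have i2 : Nonempty A := ⟨⟨a, ha⟩⟩
      obtain ⟨x, hx⟩ := H279R3.helly hT (fun s : A => Fx V ({(s : G)} : Set G))
        (fun s => (fx_cvx hT hadj _).wconn hT) (fun s t => hpair s s.2 t t.2)
      exact ⟨x, fun s hs => hx ⟨s, hs⟩ s rfl⟩
  obtain ⟨v, hv⟩ := hfix
  refine ⟨v, fun g => ?_⟩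
  have h1 : Subgroup.closure A ≤ MulAction.stabilizer G v := by
    rw [Subgroup.closure_le]
    exact fun s hs => hv s hs
  rw [hcl] at h1
  exact h1 (Subgroup.mem_top g)

end Pool.Agent.N507.FA
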